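import Pool.Agent.H467Z.Fek.Basic

set_option autoImplicit false

namespace Pool.Agent.H467Z.Fek

open Polynomial Metric Set Finset

lemma avoid {ι : Type} [Fintype ι] [DecidableEq ι] (E : Set ℂ) (hEi : E.Infinite) (z : ℂ)
    (Y : Finset ℂ) (r d β α B g G : ℝ) (M m t d0 : ℕ) (hM : Y.card = M) (hm : 1 ≤ m)
    (hι : Fintype.card ι = m + 1) (hr : 0 < r) (hd0 : 0 < d) (hβ0 : 0 < β) (hα0 : 0 < α)
    (hG0 : 0 ≤ G)
    (hd : ∀ w ∈ E, d ≤ ‖w - z‖) (hB : ∀ w ∈ E, ‖w - z‖ ≤ B) (hβ : ∀ y ∈ Y, ‖y‖ ≤ β)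
    (hα : ∀ y ∈ Y, α ≤ ‖y‖) (hα' : ∀ y ∈ Y, ∀ y' ∈ Y, y ≠ y' → α ≤ ‖y - y'‖)
    (h1 : r * β ≤ d / 2) (h2 : r * β ≤ B) (h3 : 1 ≤ 2 * B) (h4 : r * α ≤ 1)
    (hg : ∀ (p : ℂ[X]) (n : ℕ), 1 ≤ n → p.natDegree ≤ n → (∀ w ∈ E, ‖p.eval w‖ ≤ 1) →
        ‖p.eval z‖ ≤ Real.exp (n * g))
    (c1 : Real.exp (m * g) < (d / (2 * β) / r) ^ M) (c2 : m * r ≤ d / (2 * β))
    (p0 : ℂ[X]) (hp0 : p0.natDegree ≤ d0) (hp0E : ∀ w ∈ E, ‖p0.eval w‖ ≤ 1)
    (hp0Y : ∀ y ∈ Y, G ≤ ‖p0.eval (z + r * y)‖) (c3 : t * d0 + M ≤ m)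
    (c4 : (m + 1) * (2 * B) ^ M < G ^ t * (r * α) ^ (M - 1))
    (hY : ∀ b ∈ Y, 2 * ∏ v ∈ Y.erase b, ‖v‖ < ∏ v ∈ Y.erase b, ‖b - v‖)
    (x : ι → ℂ) (hx : ∀ i, x i ∈ E ∪ insert z ((fun y => z + r * y) '' (Y : Set ℂ)))
    (hEx : Ex (E ∪ insert z ((fun y => z + r * y) '' (Y : Set ℂ))) x) : ∀ i, x i ≠ z := by
  classical
  intro i0 hi0
  have hinj : Function.Injective x := hEx.injective (hEi.mono Set.subset_union_left)
  have hrc : (r : ℂ) ≠ 0 := by exact_mod_cast hr.ne'
  have hnr : ‖(r : ℂ)‖ = r := by rw [Complex.norm_real, Real.norm_eq_abs, abs_of_pos hr]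
  set In : Finset ι := univ.filter (fun j => ∃ y ∈ Y, x j = z + r * y) with hIn
  set Out : Finset ι := univ.erase i0 \ In with hOut
  set A : Finset ℂ := Y.filter (fun y => ∃ j, x j = z + r * y) with hA
  have hAY : A ⊆ Y := Finset.filter_subset _ _
  have hi0In : i0 ∉ In := by
    rw [hIn, Finset.mem_filter]
    rintro ⟨-, y, hy, e⟩
    rw [hi0, left_eq_add, mul_eq_zero] at e
    rcases e with e | e
    · exact hrc e
    · have := hα y hy
      rw [e, norm_zero] at this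
      linarith
  have hInsub : In ⊆ univ.erase i0 := by
    intro j hj
    rw [Finset.mem_erase]
    exact ⟨fun e => hi0In (e ▸ hj), Finset.mem_univ _⟩
  have hOutE : ∀ j ∈ Out, x j ∈ E := by
    intro j hj
    rw [hOut, Finset.mem_sdiff, Finset.mem_erase, hIn, Finset.mem_filter] at hj
    rcases hx j with h | h | ⟨y, hy, h⟩
    · exact h
    · exact absurd (hinj (h.trans hi0.symm)) hj.1.1
    · exact absurd ⟨Finset.mem_univ _, y, hy, h.symm⟩ hj.2
  have hsplit : ∀ f : ℂ → ℝ, ∏ j ∈ univ.erase i0, f (x j) =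
      (∏ j ∈ Out, f (x j)) * ∏ y ∈ A, f (z + r * y) := by
    intro f
    rw [← Finset.prod_sdiff hInsub]
    congr 1
    refine Finset.prod_nbij (fun j => (x j - z) / r) ?_ ?_ ?_ ?_
    · intro j hj
      rw [hIn, Finset.mem_filter] at hj
      obtain ⟨-, y, hy, e⟩ := hj
      have : (x j - z) / r = y := by rw [e]; field_simp; ring
      rw [hA, Finset.mem_filter, this]
      exact ⟨hy, j, e⟩
    · intro j _ j' _ e
      apply hinj
      simp only at e
      rw [div_left_inj' hrc] at e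
      exact sub_left_injective e
    · intro y hy
      rw [hA, Finset.coe_filter] at hy
      obtain ⟨hy, j, e⟩ := hy
      refine ⟨j, ?_, ?_⟩
      · rw [hIn, Finset.coe_filter]
        exact ⟨Finset.mem_univ _, y, hy, e⟩
      · simp only
        rw [e]; field_simp; ring
    · intro j _
      congr 1
      field_simp
      ring
  have hOutc : Out.card ≤ m := by
    have : Out.card ≤ (univ.erase i0).card := Finset.card_le_card Finset.sdiff_subset
    rw [Finset.card_erase_of_mem (Finset.mem_univ _), Finset.card_univ, hι] at this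
    omega
  have hPz : 0 < ∏ j ∈ Out, ‖z - x j‖ := by
    refine Finset.prod_pos fun j hj => ?_
    rw [norm_sub_rev]
    exact lt_of_lt_of_le hd0 (hd _ (hOutE j hj))
  have hex : ∀ w ∈ E ∪ insert z ((fun y => z + r * y) '' (Y : Set ℂ)),
      (∏ j ∈ Out, ‖w - x j‖) * ∏ y ∈ A, ‖w - (z + r * y)‖ ≤
      (∏ j ∈ Out, ‖z - x j‖) * (r ^ A.card * ∏ y ∈ A, ‖y‖) := by
    intro w hw
    have := hEx i0 w hw
    rw [hsplit (fun v => ‖w - v‖), hi0, hsplit (fun v => ‖z - v‖)] at this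
    refine this.trans (le_of_eq ?_)
    congr 1
    rw [← Finset.prod_const, ← Finset.prod_mul_distrib]
    refine Finset.prod_congr rfl fun y _ => ?_
    rw [sub_add_cancel_left, norm_neg, norm_mul, hnr]
  by_cases hAeq : A = Y
  · set lam : ℝ := (d / (2 * β) / r) ^ M with hlam
    have hlam0 : 0 < lam := by positivity
    set P : ℝ := ∏ j ∈ Out, ‖z - x j‖ with hP
    let f : ℂ[X] := C ((lam / P : ℝ) : ℂ) * ∏ j ∈ Out, (X - C (x j))
    have hfe : ∀ w, ‖f.eval w‖ = lam / P * ∏ j ∈ Out, ‖w - x j‖ := by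
      intro w
      simp only [f, eval_mul, eval_C, eval_prod, eval_sub, eval_X, norm_mul, norm_prod]
      rw [Complex.norm_real, Real.norm_eq_abs, abs_of_pos (by positivity)]
    have hfd : f.natDegree ≤ m := by
      refine (natDegree_C_mul_le _ _).trans ?_
      rw [natDegree_finsetProd_X_sub_C_eq_card]
      exact hOutc
    have := hg f m hm hfd (fun w hw => by
      rw [hfe]
      have a1 := hex w (Or.inl hw)
      rw [hAeq, hM] at a1
      have a2 : (d / 2) ^ M ≤ ∏ y ∈ Y, ‖w - (z + r * y)‖ := by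
        rw [← hM, ← Finset.prod_const]
        refine Finset.prod_le_prod (fun _ _ => by positivity) fun y hy => ?_
        have b1 : ‖w - z‖ ≤ ‖w - (z + r * y)‖ + ‖(r : ℂ) * y‖ := by
          calc ‖w - z‖ = ‖(w - (z + r * y)) + r * y‖ := by ring_nf
            _ ≤ _ := norm_add_le _ _
        rw [norm_mul, hnr] at b1
        have b2 : r * ‖y‖ ≤ r * β := by gcongr; exact hβ y hy
        have := hd w hw
        linarith
      have a3 : ∏ y ∈ Y, ‖y‖ ≤ β ^ M := by
        rw [← hM, ← Finset.prod_const]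
        exact Finset.prod_le_prod (fun _ _ => norm_nonneg _) hβ
      have a4 : lam * (r ^ M * β ^ M) = (d / 2) ^ M := by
        rw [hlam, ← mul_pow, ← mul_pow]
        congr 1
        field_simp
      have a5 : (∏ j ∈ Out, ‖w - x j‖) * (d / 2) ^ M ≤ P * (r ^ M * β ^ M) := by
        calc _ ≤ (∏ j ∈ Out, ‖w - x j‖) * ∏ y ∈ Y, ‖w - (z + r * y)‖ := by gcongr
          _ ≤ _ := a1
          _ ≤ _ := by gcongr
      rw [div_mul_eq_mul_div, div_le_one hPz]
      have a6 : 0 < r ^ M * β ^ M := by positivity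
      rw [← a4] at a5
      refine le_of_mul_le_mul_right ?_ a6
      linarith)
    rw [hfe, div_mul_cancel₀ _ hPz.ne'] at this
    linarith
  obtain ⟨b, hbY, hbA⟩ : ∃ b ∈ Y, b ∉ A := by
    by_contra hc
    push Not at hc
    exact hAeq (Finset.Subset.antisymm hAY hc)
  have hAb : A ⊆ Y.erase b := by
    intro y hy
    exact Finset.mem_erase.mpr ⟨fun e => hbA (e ▸ hy), hAY hy⟩
  have hwb : z + r * b ∈ E ∪ insert z ((fun y => z + r * y) '' (Y : Set ℂ)) :=
    Or.inr (Or.inr ⟨b, hbY, rfl⟩)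
  by_cases hAeq' : A = Y.erase b
  · have a1 := hex _ hwb
    have a2 : ∏ y ∈ A, ‖z + r * b - (z + r * y)‖ = r ^ A.card * ∏ y ∈ A, ‖b - y‖ := by
      rw [← Finset.prod_const, ← Finset.prod_mul_distrib]
      refine Finset.prod_congr rfl fun y _ => ?_
      rw [show z + r * b - (z + r * y) = r * (b - y) by ring, norm_mul, hnr]
    have a3 : (∏ j ∈ Out, ‖z - x j‖) * (1 / 2) ≤ ∏ j ∈ Out, ‖z + r * b - x j‖ := by
      have b0 : r * β / d ≤ 1 / 2 := by rw [div_le_iff₀ hd0]; linarith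
      have b1 : (1 / 2 : ℝ) ≤ (1 - r * β / d) ^ Out.card := by
        have := one_add_mul_le_pow (a := -(r * β / d)) (by linarith) Out.card
        rw [← sub_eq_add_neg] at this
        refine le_trans ?_ this
        have b2 : (Out.card : ℝ) ≤ m := by exact_mod_cast hOutc
        have b3 : (m : ℝ) * (r * β / d) ≤ 1 / 2 := by
          rw [le_div_iff₀ (by positivity)] at c2
          rw [← mul_div_assoc, div_le_iff₀ hd0]
          linarith
        have b4 : (Out.card : ℝ) * (r * β / d) ≤ m * (r * β / d) := by gcongr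
        linarith
      calc _ ≤ (∏ j ∈ Out, ‖z - x j‖) * (1 - r * β / d) ^ Out.card := by gcongr
        _ = ∏ j ∈ Out, (‖z - x j‖ * (1 - r * β / d)) := by
          rw [Finset.prod_mul_distrib, Finset.prod_const]
        _ ≤ _ := by
          refine Finset.prod_le_prod (fun _ _ => mul_nonneg (norm_nonneg _) (by linarith))
            fun j hj => ?_
          have b1 : ‖z - x j‖ ≤ ‖z + r * b - x j‖ + ‖(r : ℂ) * b‖ := by
            calc ‖z - x j‖ = ‖(z + r * b - x j) - r * b‖ := by ring_nf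
              _ ≤ _ := norm_sub_le _ _
          rw [norm_mul, hnr] at b1
          have b2 : r * ‖b‖ ≤ r * β := by gcongr; exact hβ b hbY
          have b3 := hd _ (hOutE j hj)
          rw [norm_sub_rev] at b3
          have b4 : r * β ≤ ‖z - x j‖ * (r * β / d) := by
            rw [← mul_div_assoc, le_div_iff₀ hd0]
            have : 0 ≤ r * β := by positivity
            nlinarith
          linarith
    rw [a2] at a1
    have a4 := hY b hbY
    rw [← hAeq'] at a4
    have a5 : 0 < r ^ A.card := by positivity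
    have a6 : 0 ≤ ∏ y ∈ A, ‖b - y‖ := Finset.prod_nonneg fun _ _ => norm_nonneg _
    have a7 : (∏ j ∈ Out, ‖z - x j‖) * (1 / 2) * (r ^ A.card * ∏ y ∈ A, ‖b - y‖) ≤
        (∏ j ∈ Out, ‖z - x j‖) * (r ^ A.card * ∏ y ∈ A, ‖y‖) := le_trans (by gcongr) a1
    have a8 : (∏ j ∈ Out, ‖z - x j‖) * r ^ A.card * (2 * ∏ y ∈ A, ‖y‖) <
        (∏ j ∈ Out, ‖z - x j‖) * r ^ A.card * ∏ y ∈ A, ‖b - y‖ :=
      mul_lt_mul_of_pos_left a4 (mul_pos hPz a5)
    linarith
  have hcA : A.card + 2 ≤ M := by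
    have a1 : A.card < (Y.erase b).card :=
      Finset.card_lt_card (Finset.ssubset_iff_subset_ne.mpr ⟨hAb, hAeq'⟩)
    rw [Finset.card_erase_of_mem hbY, hM] at a1
    omega
  let f : ℂ[X] := p0 ^ t * ((X - C z) * ∏ y ∈ A, (X - C (z + r * y)))
  have hfe : ∀ w, ‖f.eval w‖ = ‖p0.eval w‖ ^ t * (‖w - z‖ * ∏ y ∈ A, ‖w - (z + r * y)‖) := by
    intro w
    simp only [f, eval_mul, eval_C, eval_prod, eval_sub, eval_X, norm_mul, norm_prod, eval_pow,
      norm_pow]
  have hfd : f.natDegree < Fintype.card ι := by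
    have a1 : (p0 ^ t).natDegree ≤ t * d0 :=
      natDegree_pow_le.trans (Nat.mul_le_mul_left t hp0)
    have a2 : (∏ y ∈ A, (X - C (z + r * y))).natDegree = A.card :=
      natDegree_finsetProd_X_sub_C_eq_card _ _
    have a3 : ((X - C z) * ∏ y ∈ A, (X - C (z + r * y))).natDegree ≤ 1 + A.card := by
      refine natDegree_mul_le.trans ?_
      rw [a2, natDegree_X_sub_C]
    have a4 : f.natDegree ≤ t * d0 + (1 + A.card) := natDegree_mul_le.trans (Nat.add_le_add a1 a3)
    omega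
  have hL := hEx.lagrange hinj f hfd _ hwb
  have hB0 : 0 < B := by linarith
  have hup : ∀ i, ‖f.eval (x i)‖ ≤ (2 * B) ^ M := by
    intro i
    rw [hfe]
    rcases hx i with h | h | ⟨y, hy, h⟩
    · have a1 : ‖p0.eval (x i)‖ ^ t ≤ 1 := pow_le_one₀ (norm_nonneg _) (hp0E _ h)
      have a2 : ∏ y ∈ A, ‖x i - (z + r * y)‖ ≤ (2 * B) ^ A.card := by
        rw [← Finset.prod_const]
        refine Finset.prod_le_prod (fun _ _ => norm_nonneg _) fun y hy => ?_
        have b1 : ‖x i - (z + r * y)‖ ≤ ‖x i - z‖ + ‖(r : ℂ) * y‖ := by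
          calc _ = ‖(x i - z) - r * y‖ := by ring_nf
            _ ≤ _ := norm_sub_le _ _
        rw [norm_mul, hnr] at b1
        have b2 : r * ‖y‖ ≤ r * β := by gcongr; exact hβ y (hAY hy)
        have := hB _ h
        linarith
      have a3 : ‖x i - z‖ ≤ 2 * B := by
        have := hB _ h
        linarith
      calc _ ≤ 1 * ((2 * B) * (2 * B) ^ A.card) := by gcongr
        _ = (2 * B) ^ (A.card + 1) := by ring
        _ ≤ (2 * B) ^ M := pow_le_pow_right₀ h3 (by omega)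
    · rw [h, sub_self, norm_zero, zero_mul, mul_zero]
      positivity
    · have hyA : y ∈ A := by
        rw [hA, Finset.mem_filter]
        exact ⟨hy, i, h.symm⟩
      rw [Finset.prod_eq_zero hyA (by rw [← h]; simp), mul_zero, mul_zero]
      positivity
  have hsum : ∑ i, ‖f.eval (x i)‖ ≤ (m + 1) * (2 * B) ^ M := by
    calc _ ≤ ∑ _i : ι, (2 * B) ^ M := Finset.sum_le_sum fun i _ => hup i
      _ = _ := by
        rw [Finset.sum_const, Finset.card_univ, hι, nsmul_eq_mul]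
        push_cast
        ring
  have hlow : G ^ t * (r * α) ^ (M - 1) ≤ ‖f.eval (z + r * b)‖ := by
    rw [hfe]
    have a1 : G ^ t ≤ ‖p0.eval (z + r * b)‖ ^ t := pow_le_pow_left₀ hG0 (hp0Y b hbY) t
    have a2 : (r * α) ^ A.card ≤ ∏ y ∈ A, ‖z + r * b - (z + r * y)‖ := by
      rw [← Finset.prod_const]
      refine Finset.prod_le_prod (fun _ _ => by positivity) fun y hy => ?_
      rw [show z + r * b - (z + r * y) = r * (b - y) by ring, norm_mul, hnr]
      gcongr
      exact hα' b hbY y (hAY hy) (fun e => hbA (e ▸ hy))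
    have a3 : r * α ≤ ‖z + r * b - z‖ := by
      rw [add_sub_cancel_left, norm_mul, hnr]
      gcongr
      exact hα b hbY
    calc G ^ t * (r * α) ^ (M - 1) ≤ G ^ t * (r * α) ^ (A.card + 1) := by
          gcongr ?_ * ?_
          exact pow_le_pow_of_le_one (by positivity) h4 (by omega)
      _ = G ^ t * ((r * α) * (r * α) ^ A.card) := by ring
      _ ≤ _ := by gcongr
  linarith

end Pool.Agent.H467Z.Fek
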