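import Mathlib

set_option autoImplicit false

namespace Pool.Agent.H467Z.Fek

open Polynomial Metric Set Finset

/-- The exchange property of a family of points with respect to the test set `K`. -/
def Ex {ι : Type} [Fintype ι] [DecidableEq ι] (K : Set ℂ) (x : ι → ℂ) : Prop :=
  ∀ i, ∀ w ∈ K, ∏ j ∈ univ.erase i, ‖w - x j‖ ≤ ∏ j ∈ univ.erase i, ‖x i - x j‖

lemma bw_unit (p : ℂ[X]) (d : ℕ) (hd : p.natDegree ≤ d)
    (h : ∀ w ∈ closedBall (0 : ℂ) 1, ‖p.eval w‖ ≤ 1) (w : ℂ) (lam : ℝ) (hl : 1 ≤ lam)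
    (hw : ‖w‖ ≤ lam) : ‖p.eval w‖ ≤ lam ^ d := by
  by_cases h1 : ‖w‖ ≤ 1
  · exact (h w (by simpa using h1)).trans (one_le_pow₀ hl)
  push Not at h1
  have key : ∀ v : ℂ, v ≠ 0 → (reflect d p).eval v⁻¹ * v ^ d = p.eval v := by
    intro v hv
    letI : Invertible v := invertibleOfNonzero hv
    have := eval₂_reflect_mul_pow (RingHom.id ℂ) v d p hd
    simpa [eval₂_id] using this
  have hw0 : w ≠ 0 := by
    rintro rfl
    simp at h1
    linarith
  have hb : ‖(reflect d p).eval w⁻¹‖ ≤ 1 := by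
    have hdc : DiffContOnCl ℂ (fun v => (reflect d p).eval v) (ball (0 : ℂ) 1) :=
      (reflect d p).differentiable.diffContOnCl
    refine Complex.norm_le_of_forall_mem_frontier_norm_le isBounded_ball hdc ?_ ?_
    · intro v hv
      rw [frontier_ball _ one_ne_zero] at hv
      have hv1 : ‖v‖ = 1 := by simpa using hv
      have hv0 : v ≠ 0 := by
        rintro rfl
        simp at hv1
      have h2 := key v⁻¹ (inv_ne_zero hv0)
      rw [inv_inv] at h2
      have h3 := h v⁻¹ (by simp [hv1])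
      rw [← h2, norm_mul, norm_pow, norm_inv, hv1] at h3
      simpa using h3
    · rw [closure_ball _ one_ne_zero]
      simp only [mem_closedBall, dist_zero_right, norm_inv]
      exact inv_le_one_of_one_le₀ h1.le
  rw [← key w hw0, norm_mul, norm_pow]
  calc ‖(reflect d p).eval w⁻¹‖ * ‖w‖ ^ d ≤ 1 * lam ^ d := by gcongr
    _ = lam ^ d := one_mul _

lemma bw_disc (p : ℂ[X]) (d : ℕ) (hd : p.natDegree ≤ d) (a : ℂ) (ρ : ℝ) (hρ : 0 < ρ)
    (h : ∀ w ∈ closedBall a ρ, ‖p.eval w‖ ≤ 1) (w : ℂ) (lam : ℝ) (hl : 1 ≤ lam)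
    (hw : ‖w - a‖ ≤ ρ * lam) : ‖p.eval w‖ ≤ lam ^ d := by
  have hρc : (ρ : ℂ) ≠ 0 := by exact_mod_cast hρ.ne'
  set q : ℂ[X] := p.comp (C (ρ : ℂ) * X + C a) with hq
  have hqd : q.natDegree ≤ d := by
    refine natDegree_comp_le.trans ?_
    have : (C (ρ : ℂ) * X + C a).natDegree ≤ 1 := natDegree_linear_le
    calc p.natDegree * (C (ρ : ℂ) * X + C a).natDegree ≤ d * 1 := Nat.mul_le_mul hd this
      _ = d := mul_one d
  have he : ∀ v, q.eval v = p.eval (ρ * v + a) := by
    intro v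
    simp [hq, eval_comp]
  have := bw_unit q d hqd (fun v hv => by
    rw [he]
    apply h
    have hv' : ‖v‖ ≤ 1 := by simpa using hv
    rw [mem_closedBall, dist_eq_norm, add_sub_cancel_right, norm_mul, Complex.norm_real,
      Real.norm_eq_abs, abs_of_pos hρ]
    nlinarith) ((w - a) / ρ) lam hl (by
      rw [norm_div, Complex.norm_real, Real.norm_eq_abs, abs_of_pos hρ, div_le_iff₀ hρ]
      linarith)
  rw [he] at this
  have e : (ρ : ℂ) * ((w - a) / ρ) + a = w := by field_simp; ring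
  rwa [e] at this

lemma Ex.injective {ι : Type} [Fintype ι] [DecidableEq ι] {K : Set ℂ} {x : ι → ℂ}
    (h : Ex K x) (hK : K.Infinite) : Function.Injective x := by
  intro i j hij
  by_contra hne
  obtain ⟨w, hw, hwx⟩ := hK.exists_notMem_finite (Set.finite_range x)
  have h1 := h i w hw
  have h2 : ∏ k ∈ univ.erase i, ‖x i - x k‖ = 0 :=
    Finset.prod_eq_zero (i := j) (by simp [Ne.symm hne]) (by simp [hij])
  have h3 : 0 < ∏ k ∈ univ.erase i, ‖w - x k‖ := by
    refine Finset.prod_pos fun k _ => ?_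
    rw [norm_pos_iff, sub_ne_zero]
    rintro rfl
    exact hwx ⟨k, rfl⟩
  linarith

lemma Ex.lagrange {ι : Type} [Fintype ι] [DecidableEq ι] {K : Set ℂ} {x : ι → ℂ}
    (h : Ex K x) (hx : Function.Injective x) (f : ℂ[X]) (hf : f.natDegree < Fintype.card ι)
    (w : ℂ) (hw : w ∈ K) : ‖f.eval w‖ ≤ ∑ i, ‖f.eval (x i)‖ := by
  have hdeg : f.degree < ((univ : Finset ι).card : ℕ) := by
    rw [Finset.card_univ]
    exact lt_of_le_of_lt degree_le_natDegree (by exact_mod_cast hf)
  have e := Lagrange.eq_interpolate (s := univ) (v := x) (f := f) hx.injOn hdeg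
  conv_lhs => rw [e]
  rw [Lagrange.interpolate_apply, eval_finsetSum]
  refine (norm_sum_le _ _).trans (Finset.sum_le_sum fun i _ => ?_)
  rw [eval_mul, eval_C, norm_mul]
  refine mul_le_of_le_one_right (norm_nonneg _) ?_
  unfold Lagrange.basis Lagrange.basisDivisor
  rw [eval_prod, norm_prod]
  simp only [eval_mul, eval_C, eval_sub, eval_X, norm_mul, norm_inv]
  rw [Finset.prod_mul_distrib, Finset.prod_inv_distrib]
  have hpos : 0 < ∏ j ∈ univ.erase i, ‖x i - x j‖ := by
    refine Finset.prod_pos fun k hk => ?_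
    rw [norm_pos_iff, sub_ne_zero]
    exact fun e => (Finset.ne_of_mem_erase hk) (hx e).symm
  rw [inv_mul_le_iff₀ hpos, mul_one]
  exact h i w hw

lemma perturb {ι : Type} [Fintype ι] [DecidableEq ι] (K : Set ℂ) (hK : IsCompact K)
    (f : ℂ → ℝ) (hf : Continuous f)
    (h : ∀ x : ι → ℂ, (∀ i, x i ∈ K) → Ex K x → ∀ i, f (x i) < 1) :
    ∃ ε : ℝ, 0 < ε ∧ ∀ x : ι → ℂ, (∀ i, x i ∈ cthickening ε K) → Ex K x → ∀ i, f (x i) < 1 := by
  by_contra hcon
  push Not at hcon
  let S : ℕ → Set (ι → ℂ) := fun n =>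
    {x | (∀ i, x i ∈ cthickening (1 / ((n : ℝ) + 1)) K) ∧ Ex K x ∧ ∃ i, 1 ≤ f (x i)}
  have hcl : ∀ n, IsClosed (S n) := by
    intro n
    have h1 : IsClosed {x : ι → ℂ | ∀ i, x i ∈ cthickening (1 / ((n : ℝ) + 1)) K} := by
      rw [Set.setOf_forall]
      exact isClosed_iInter fun i => isClosed_cthickening.preimage (continuous_apply i)
    have h2 : IsClosed {x : ι → ℂ | Ex K x} := by
      unfold Ex
      simp only [Set.setOf_forall]
      refine isClosed_iInter fun i => isClosed_iInter fun w => isClosed_iInter fun _ => ?_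
      exact isClosed_le (by fun_prop) (by fun_prop)
    have h3 : IsClosed {x : ι → ℂ | ∃ i, 1 ≤ f (x i)} := by
      rw [Set.setOf_exists]
      exact isClosed_iUnion_of_finite fun i =>
        isClosed_le continuous_const (hf.comp (continuous_apply i))
    exact h1.inter (h2.inter h3)
  have hne : ∀ n, (S n).Nonempty := by
    intro n
    obtain ⟨x, h1, h2, h3⟩ := hcon (1 / ((n : ℝ) + 1)) (by positivity)
    exact ⟨x, h1, h2, h3⟩
  have hdec : ∀ n, S (n + 1) ⊆ S n := by
    rintro n x ⟨h1, h2, h3⟩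
    refine ⟨fun i => cthickening_mono ?_ K (h1 i), h2, h3⟩
    apply one_div_le_one_div_of_le (by positivity)
    push_cast
    linarith
  have hc0 : IsCompact (S 0) := by
    have : IsCompact (Set.pi Set.univ fun _ : ι => cthickening (1 / (((0 : ℕ) : ℝ) + 1)) K) :=
      isCompact_univ_pi fun _ => hK.cthickening
    exact this.of_isClosed_subset (hcl 0) fun x hx i _ => hx.1 i
  obtain ⟨x, hx⟩ := IsCompact.nonempty_iInter_of_sequence_nonempty_isCompact_isClosed S hdec hne
    hc0 hcl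
  rw [Set.mem_iInter] at hx
  have hxK : ∀ i, x i ∈ K := by
    intro i
    rw [← hK.isClosed.closure_eq, closure_eq_iInter_cthickening]
    simp only [Set.mem_iInter]
    intro δ hδ
    obtain ⟨n, hn⟩ := exists_nat_one_div_lt hδ
    exact cthickening_mono hn.le K ((hx n).1 i)
  obtain ⟨i, hi⟩ := (hx 0).2.2
  exact absurd (h x hxK (hx 0).2.1 i) (not_lt.mpr hi)

end Pool.Agent.H467Z.Fek
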