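import Pool.Agent.H467Z.Fek.Global

set_option autoImplicit false

namespace Pool.Agent.H467Z.Fek

open Polynomial Metric Set Finset

/-- The set whose supremum is the Siciak extremal function, in one variable. -/
def SS (K : Set ℂ) (z : ℂ) : Set ℝ :=
  {t : ℝ | t = 1 ∨ ∃ p : ℂ[X], 1 ≤ p.natDegree ∧ (∀ x ∈ K, ‖p.eval x‖ ≤ 1) ∧
    t = ‖p.eval z‖ ^ ((1 : ℝ) / (p.natDegree : ℝ))}

lemma root_le {a b : ℝ} {d : ℕ} (hd : 1 ≤ d) (ha : 0 ≤ a) (hb : 0 ≤ b) (h : a ≤ b ^ d) :
    a ^ ((1 : ℝ) / (d : ℝ)) ≤ b := by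
  calc a ^ ((1 : ℝ) / (d : ℝ)) ≤ (b ^ d) ^ ((1 : ℝ) / (d : ℝ)) :=
        Real.rpow_le_rpow ha h (by positivity)
    _ = b := by rw [one_div, Real.pow_rpow_inv_natCast hb (by omega)]

lemma le_root {a b : ℝ} {d : ℕ} (hd : 1 ≤ d) (ha : 0 ≤ a)
    (h : a ^ ((1 : ℝ) / (d : ℝ)) ≤ b) : a ≤ b ^ d := by
  calc a = (a ^ ((1 : ℝ) / (d : ℝ))) ^ d := by
        rw [one_div, Real.rpow_inv_natCast_pow ha (by omega)]
    _ ≤ b ^ d := pow_le_pow_left₀ (by positivity) h d

lemma regular (K : Set ℂ) (h1 : closedBall (0 : ℂ) 1 ⊆ K)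
    (h2 : ∀ η : ℝ, 0 < η → ∃ ρ : ℝ, 0 < ρ ∧ ∀ k ∈ K, ‖k‖ ≤ 1 + η ∨
      ∃ (a : ℂ) (ρ' : ℝ), ρ ≤ ρ' ∧ k ∈ closedBall a ρ' ∧ closedBall a ρ' ⊆ K) :
    ∃ Φ : ℂ → ℝ, Continuous Φ ∧ ∀ z, IsLUB (SS K z) (Φ z) := by
  have hne : ∀ z, (SS K z).Nonempty := fun z => ⟨1, Or.inl rfl⟩
  have hbdd : ∀ z, BddAbove (SS K z) := by
    intro z
    refine ⟨max 1 ‖z‖, ?_⟩
    rintro t (rfl | ⟨p, hp, hb, rfl⟩)
    · exact le_max_left _ _
    · exact root_le hp (norm_nonneg _) (by positivity)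
        (bw_unit p _ le_rfl (fun w hw => hb w (h1 hw)) z _ (le_max_left _ _) (le_max_right _ _))
  let Φ : ℂ → ℝ := fun z => sSup (SS K z)
  have hΦ1 : ∀ z, 1 ≤ Φ z := fun z => le_csSup (hbdd z) (Or.inl rfl)
  have key : ∀ η : ℝ, 0 < η → ∃ ε : ℝ, 0 < ε ∧ ∀ z w : ℂ, ‖w - z‖ ≤ ε → Φ w ≤ (1 + η) * Φ z := by
    intro η hη
    obtain ⟨ρ, hρ, hK⟩ := h2 (η / 2) (by positivity)
    refine ⟨min (η / 2) (ρ * η), lt_min (by positivity) (by positivity), fun z w hw => ?_⟩
    have hw1 : ‖w - z‖ ≤ η / 2 := hw.trans (min_le_left _ _)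
    have hw2 : ‖w - z‖ ≤ ρ * η := hw.trans (min_le_right _ _)
    refine csSup_le (hne w) ?_
    rintro t (rfl | ⟨p, hp, hb, rfl⟩)
    · have := hΦ1 z
      nlinarith
    · set d := p.natDegree with hd
      have hpos : (0 : ℝ) < (1 + η) ^ d := by positivity
      let q : ℂ[X] := C ((1 / (1 + η) ^ d : ℝ) : ℂ) * p.comp (X + C (w - z))
      have hqe : ∀ v, ‖q.eval v‖ = ‖p.eval (v + (w - z))‖ / (1 + η) ^ d := by
        intro v
        simp only [q, eval_mul, eval_C, eval_comp, eval_add, eval_X, norm_mul]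
        rw [Complex.norm_real, Real.norm_eq_abs, abs_of_pos (by positivity)]
        ring
      have hqd : q.natDegree = d := by
        have hc : ((1 / (1 + η) ^ d : ℝ) : ℂ) ≠ 0 := by
          exact_mod_cast (by positivity : (1 / (1 + η) ^ d : ℝ) ≠ 0)
        rw [natDegree_C_mul hc, natDegree_comp, natDegree_X_add_C, mul_one]
      have hqb : ∀ x ∈ K, ‖q.eval x‖ ≤ 1 := by
        intro x hx
        rw [hqe, div_le_one hpos]
        rcases hK x hx with h | ⟨a, ρ', h3, h4, h5⟩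
        · refine bw_unit p d le_rfl (fun w hw => hb w (h1 hw)) _ _ (by linarith) ?_
          exact (norm_add_le _ _).trans (by linarith)
        · refine bw_disc p d le_rfl a ρ' (by linarith) (fun w hw => hb w (h5 hw)) _ _
            (by linarith) ?_
          rw [mem_closedBall, dist_eq_norm] at h4
          calc ‖x + (w - z) - a‖ = ‖(x - a) + (w - z)‖ := by ring_nf
            _ ≤ ρ' + ρ * η := (norm_add_le _ _).trans (by linarith)
            _ ≤ ρ' * (1 + η) := by nlinarith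
      have h6 : ‖q.eval z‖ ^ ((1 : ℝ) / (d : ℝ)) ≤ Φ z :=
        le_csSup (hbdd z) (Or.inr ⟨q, by omega, hqb, by rw [hqd]⟩)
      have h7 := le_root hp (norm_nonneg _) h6
      rw [hqe, add_sub_cancel, div_le_iff₀ hpos] at h7
      refine root_le hp (norm_nonneg _) (by have := hΦ1 z; positivity) ?_
      rw [mul_pow, mul_comm]
      exact h7
  refine ⟨Φ, ?_, fun z => isLUB_csSup (hne z) (hbdd z)⟩
  rw [Metric.continuous_iff]
  intro z e he
  have hz := hΦ1 z
  set η : ℝ := min 1 (e / (4 * Φ z)) with hη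
  have hη0 : 0 < η := lt_min one_pos (by positivity)
  have hη1 : η ≤ 1 := min_le_left _ _
  have hη2 : η * Φ z ≤ e / 4 := by
    have : η ≤ e / (4 * Φ z) := min_le_right _ _
    rw [le_div_iff₀ (by positivity)] at this
    linarith
  obtain ⟨ε, hε, hk⟩ := key η hη0
  refine ⟨ε, hε, fun w hw => ?_⟩
  rw [dist_eq_norm] at hw
  have a1 := hk z w hw.le
  have a2 := hk w z (by rw [norm_sub_rev]; exact hw.le)
  have hw1 := hΦ1 w
  rw [Real.dist_eq, abs_lt]
  constructor <;> nlinarith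

lemma natDegree_unique (P : MvPolynomial (Fin 1) ℂ) :
    (MvPolynomial.uniqueAlgEquiv ℂ (Fin 1) P).natDegree = P.totalDegree := by
  apply le_antisymm
  · rw [natDegree_le_iff_coeff_eq_zero]
    intro N hN
    rw [MvPolynomial.coeff_uniqueAlgEquiv]
    by_contra hc
    have := MvPolynomial.le_totalDegree (MvPolynomial.mem_support_iff.mpr hc)
    rw [Finsupp.sum_single_index rfl] at this
    omega
  · rw [MvPolynomial.totalDegree, Finset.sup_le_iff]
    intro s hs
    rw [MvPolynomial.mem_support_iff, Finsupp.unique_single s,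
      ← MvPolynomial.coeff_uniqueAlgEquiv] at hs
    rw [Finsupp.unique_single s, Finsupp.sum_single_index rfl]
    exact le_natDegree_of_ne_zero hs

lemma eval_unique (P : MvPolynomial (Fin 1) ℂ) (x : Fin 1 → ℂ) :
    MvPolynomial.eval x P = (MvPolynomial.uniqueAlgEquiv ℂ (Fin 1) P).eval (x 0) := by
  have := MvPolynomial.eval₂_uniqueAlgEquiv (R := ℂ) (σ := Fin 1) (f := P) (φ := RingHom.id ℂ)
    (a := x)
  rw [eval₂_id] at this
  exact this.symm

lemma vdm_sq {n : ℕ} (v : Fin n → ℂ) (k : Fin n) :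
    ‖(Matrix.vandermonde v).det‖ ^ 2 = (∏ j ∈ univ.erase k, ‖v k - v j‖) ^ 2 *
      ∏ i ∈ univ.erase k, ∏ j ∈ (univ.erase k).erase i, ‖v j - v i‖ := by
  rw [Matrix.det_vandermonde, norm_prod]
  simp_rw [norm_prod]
  have h := Finset.prod_prod_Ioi_mul_eq_prod_prod_off_diag (fun j i : Fin n => ‖v j - v i‖)
  have h2 : (∏ i, ∏ j ∈ Finset.Ioi i, ‖v j - v i‖) ^ 2 =
      ∏ i, ∏ j ∈ Finset.Ioi i, ‖v j - v i‖ * ‖v i - v j‖ := by
    rw [sq, ← Finset.prod_mul_distrib]
    refine Finset.prod_congr rfl fun i _ => ?_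
    rw [← Finset.prod_mul_distrib]
    refine Finset.prod_congr rfl fun j _ => ?_
    rw [norm_sub_rev (v i)]
  rw [h2, h, ← Finset.mul_prod_erase _ _ (Finset.mem_univ k), sq, mul_assoc]
  congr 1
  · rw [Finset.compl_singleton]
    exact Finset.prod_congr rfl fun j _ => norm_sub_rev _ _
  · rw [← Finset.prod_mul_distrib]
    refine Finset.prod_congr rfl fun i hi => ?_
    rw [Finset.compl_singleton, ← Finset.mul_prod_erase _ _
      (Finset.mem_erase.mpr ⟨(Finset.ne_of_mem_erase hi).symm, Finset.mem_univ k⟩),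
      Finset.erase_right_comm]

lemma ex_of_max {n : ℕ} (K : Set ℂ) (hK : K.Infinite) (x : Fin n → ℂ) (hx : ∀ i, x i ∈ K)
    (h : ∀ y : Fin n → ℂ, (∀ i, y i ∈ K) →
      ‖(Matrix.vandermonde y).det‖ ≤ ‖(Matrix.vandermonde x).det‖) : Ex K x := by
  intro k w hw
  have hpos : 0 < ‖(Matrix.vandermonde x).det‖ := by
    let e := hK.natEmbedding
    refine lt_of_lt_of_le ?_ (h (fun i => (e i : ℂ)) fun i => (e i).2)
    rw [norm_pos_iff, Matrix.det_vandermonde_ne_zero_iff]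
    intro i j hij
    exact Fin.ext (e.injective (Subtype.ext hij))
  have h1 := h (Function.update x k w) (fun i => by
    rcases eq_or_ne i k with rfl | hi
    · simpa using hw
    · simpa [hi] using hx i)
  have h2 := pow_le_pow_left₀ (norm_nonneg _) h1 2
  have h3 := pow_pos hpos 2
  rw [vdm_sq _ k] at h3
  rw [vdm_sq _ k, vdm_sq _ k] at h2
  have e1 : ∏ i ∈ univ.erase k, ∏ j ∈ (univ.erase k).erase i,
      ‖Function.update x k w j - Function.update x k w i‖ =
      ∏ i ∈ univ.erase k, ∏ j ∈ (univ.erase k).erase i, ‖x j - x i‖ := by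
    refine Finset.prod_congr rfl fun i hi => Finset.prod_congr rfl fun j hj => ?_
    rw [Function.update_of_ne (Finset.ne_of_mem_erase hi),
      Function.update_of_ne (Finset.ne_of_mem_erase (Finset.mem_of_mem_erase hj))]
  have e2 : ∏ j ∈ univ.erase k, ‖Function.update x k w k - Function.update x k w j‖ =
      ∏ j ∈ univ.erase k, ‖w - x j‖ := by
    refine Finset.prod_congr rfl fun j hj => ?_
    rw [Function.update_self, Function.update_of_ne (Finset.ne_of_mem_erase hj)]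
  rw [e1, e2] at h2
  have h4 : 0 < ∏ i ∈ univ.erase k, ∏ j ∈ (univ.erase k).erase i, ‖x j - x i‖ :=
    pos_of_mul_pos_right h3 (sq_nonneg _)
  have h5 := le_of_mul_le_mul_right h2 h4
  exact (pow_le_pow_iff_left₀ (Finset.prod_nonneg fun _ _ => norm_nonneg _)
    (Finset.prod_nonneg fun _ _ => norm_nonneg _) two_ne_zero).1 h5

/-- The index set of the monomials of degree at most `N` in one variable. -/
abbrev Idx (N : ℕ) := {α : Fin 1 → ℕ // α ∈ Finset.filter (fun α : Fin 1 → ℕ => ∑ i, α i ≤ N)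
  (Fintype.piFinset fun _ : Fin 1 => Finset.range (N + 1))}

/-- The exponent as an element of `Fin (N + 1)`. -/
def idxEquiv (N : ℕ) : Idx N ≃ Fin (N + 1) where
  toFun a := ⟨a.1 0, by
    have := (Finset.mem_filter.mp a.2).2
    rw [Fin.sum_univ_one] at this
    omega⟩
  invFun i := ⟨fun _ => i, by
    have := i.2
    simp only [Finset.mem_filter, Fintype.mem_piFinset, Finset.mem_range, Fin.sum_univ_one]
    exact ⟨fun _ => this, by omega⟩⟩
  left_inv a := by
    ext i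
    rw [Subsingleton.elim i 0]
  right_inv i := rfl

lemma det_idx (N : ℕ) (y : Idx N → Fin 1 → ℂ) :
    (Matrix.of (fun a b : Idx N => ∏ i, y a i ^ (b.1 i))).det =
      (Matrix.vandermonde fun i => y ((idxEquiv N).symm i) 0).det := by
  rw [← Matrix.det_submatrix_equiv_self (idxEquiv N)]
  congr 1
  ext a b
  simp only [Matrix.of_apply, Fin.prod_univ_one, Matrix.submatrix_apply,
    Matrix.vandermonde_apply, Equiv.symm_apply_apply]
  rfl

end Pool.Agent.H467Z.Fek
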