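import Mathlib

set_option autoImplicit false

namespace Pool.Agent.H467Z.Fek

open Polynomial Metric Set Finset

lemma gadget (k s : ℕ) (hs : 1 ≤ s) :
    ∃ (q : ℕ) (Y : Finset ℂ), 1 ≤ q ∧ Y.card = q * s ∧ (0 : ℂ) ∉ Y ∧
      (∀ b ∈ Y, 2 * ∏ v ∈ Y.erase b, ‖v‖ < ∏ v ∈ Y.erase b, ‖b - v‖) ∧
      ∃ Q : ℂ[X], Q.natDegree ≤ q * k ∧ ‖Q.eval 0‖ = 1 ∧
        (∀ y ∈ Y, ‖Q.eval y‖ ≤ (1 / 2) ^ k) ∧
        ∀ (ζ : ℂ) (ρ : ℝ), 1 ≤ ρ → ‖ζ‖ ≤ ρ → ‖Q.eval ζ‖ ≤ 2 ^ k * ρ ^ (q * k) := by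
  classical
  set q : ℕ := 5 * 2 ^ s with hq
  have hq1 : 1 ≤ q := by
    have : 1 ≤ 2 ^ s := Nat.one_le_two_pow
    omega
  have hm1 : (X ^ q - C (1 : ℂ)).Monic := monic_X_pow_sub_C _ (by omega)
  have hd1 : (X ^ q - C (1 : ℂ)).natDegree = q := natDegree_X_pow_sub_C
  set T : ℂ[X] := (X ^ q - C 1) ^ s - C ((1 / 2) ^ s) with hT
  have hm2 : ((X ^ q - C (1 : ℂ)) ^ s).Monic := hm1.pow s
  have hd2 : ((X ^ q - C (1 : ℂ)) ^ s).natDegree = q * s := by
    rw [hm1.natDegree_pow, hd1, mul_comm]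
  have hqs : 0 < q * s := Nat.mul_pos hq1 hs
  have hTm : T.Monic := by
    refine hm2.sub_of_left ?_
    refine lt_of_le_of_lt degree_C_le ?_
    rw [degree_eq_natDegree hm2.ne_zero, hd2]
    exact_mod_cast hqs
  have hTd : T.natDegree = q * s := by
    rw [hT, natDegree_sub_C, hd2]
  have hev : ∀ y, T.eval y = (y ^ q - 1) ^ s - (1 / 2) ^ s := by
    intro y
    simp [hT]
  have hder : ∀ y, (derivative T).eval y = s * (y ^ q - 1) ^ (s - 1) * (q * y ^ (q - 1)) := by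
    intro y
    simp [hT, derivative_pow]
  have hroot : ∀ y, T.IsRoot y → ‖y ^ q - 1‖ = 1 / 2 := by
    intro y hy
    rw [IsRoot.def, hev, sub_eq_zero] at hy
    have h2 : ‖y ^ q - 1‖ ^ s = (1 / 2) ^ s := by
      rw [← norm_pow, hy]
      simp
    exact (pow_left_inj₀ (norm_nonneg _) (by norm_num) (by omega)).1 h2
  have hbig : ∀ y, T.IsRoot y → 4 < ‖y‖ * ‖(derivative T).eval y‖ := by
    intro y hy
    have h1 := hroot y hy
    have h2 : 1 / 2 ≤ ‖y‖ ^ q := by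
      have h3 : ‖(1 : ℂ)‖ ≤ ‖y ^ q‖ + ‖y ^ q - 1‖ := by
        calc ‖(1 : ℂ)‖ = ‖y ^ q - (y ^ q - 1)‖ := by ring_nf
          _ ≤ _ := norm_sub_le _ _
      rw [norm_pow, norm_one, h1] at h3
      linarith
    rw [hder, norm_mul, norm_mul, norm_mul, norm_pow, norm_pow, h1, Complex.norm_natCast,
      Complex.norm_natCast]
    have e1 : ‖y‖ * ‖y‖ ^ (q - 1) = ‖y‖ ^ q := by
      rw [← pow_succ']
      congr 1
      omega
    have e2 : (q : ℝ) * (1 / 2) ^ (s - 1) = 10 := by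
      obtain ⟨t, rfl⟩ : ∃ t, s = t + 1 := ⟨s - 1, by omega⟩
      rw [hq]
      push_cast
      rw [pow_succ, one_div, inv_pow]
      field_simp
      norm_num
    have hs' : (1 : ℝ) ≤ s := by exact_mod_cast hs
    calc (4 : ℝ) < 1 * 10 * (1 / 2) := by norm_num
      _ ≤ s * 10 * ‖y‖ ^ q := by gcongr
      _ = ‖y‖ * (s * (1 / 2) ^ (s - 1) * (q * ‖y‖ ^ (q - 1))) := by
        rw [← e1, ← e2]; ring
  have hnd : T.roots.Nodup := by
    rw [Multiset.nodup_iff_count_le_one]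
    intro y
    rw [count_roots]
    by_contra hc
    push Not at hc
    obtain ⟨h1, h2⟩ := (one_lt_rootMultiplicity_iff_isRoot hTm.ne_zero).1 hc
    have := hbig y h1
    rw [IsRoot.def] at h2
    rw [h2] at this
    simp at this
    linarith
  have hcard : T.roots.card = T.natDegree := IsAlgClosed.card_roots_eq_natDegree
  have hprod : (T.roots.map fun a => X - C a).prod = T :=
    prod_multiset_X_sub_C_of_monic_of_roots_card_eq hTm hcard
  let Y : Finset ℂ := ⟨T.roots, hnd⟩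
  have hYm : ∀ y, y ∈ Y ↔ T.IsRoot y := by
    intro y
    change y ∈ T.roots ↔ _
    exact mem_roots hTm.ne_zero
  have hY0 : (0 : ℂ) ∉ Y := by
    intro h0
    have := hbig 0 ((hYm 0).1 h0)
    simp at this
    linarith
  refine ⟨q, Y, hq1, ?_, hY0, ?_, (X ^ q - C 1) ^ k, ?_, ?_, ?_, ?_⟩
  · change T.roots.card = q * s
    rw [hcard, hTd]
  · intro b hb
    have h1 : (derivative T).eval b = ∏ v ∈ Y.erase b, (b - v) := by
      conv_lhs => rw [← hprod]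
      rw [eval_multiset_prod_X_sub_C_derivative (S := T.roots) hb]
      rfl
    have h2 : T.eval 0 = ∏ v ∈ Y, (0 - v) := by
      conv_lhs => rw [← hprod]
      rw [eval_multiset_prod, Multiset.map_map]
      simp only [Function.comp_def, eval_sub, eval_X, eval_C]
      rfl
    have h3 : ‖T.eval 0‖ ≤ 2 := by
      rw [hev]
      refine (norm_sub_le _ _).trans ?_
      have : (0 : ℂ) ^ q = 0 := zero_pow (by omega)
      rw [this, norm_pow, norm_pow]
      have h5 : ‖(1 / 2 : ℂ)‖ ^ s ≤ 1 := pow_le_one₀ (norm_nonneg _) (by simp; norm_num)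
      simp only [zero_sub, norm_neg, norm_one, one_pow]
      linarith
    have h4 : ‖b‖ * ∏ v ∈ Y.erase b, ‖v‖ = ‖T.eval 0‖ := by
      rw [h2, norm_prod, ← Finset.mul_prod_erase Y _ hb]
      simp
    have h5 := hbig b ((hYm b).1 hb)
    rw [h1, norm_prod] at h5
    have hb0 : 0 < ‖b‖ := norm_pos_iff.mpr (by rintro rfl; exact hY0 hb)
    have : ‖b‖ * (2 * ∏ v ∈ Y.erase b, ‖v‖) < ‖b‖ * ∏ v ∈ Y.erase b, ‖b - v‖ := by
      nlinarith
    exact lt_of_mul_lt_mul_left this hb0.le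
  · rw [hm1.natDegree_pow, hd1, mul_comm]
  · have : (0 : ℂ) ^ q = 0 := zero_pow (by omega)
    simp [this]
  · intro y hy
    have := hroot y ((hYm y).1 hy)
    simp only [eval_pow, eval_sub, eval_X, eval_C, norm_pow, this, le_refl]
  · intro ζ ρ hρ hζ
    simp only [eval_pow, eval_sub, eval_X, eval_C, norm_pow]
    have h1 : ‖ζ ^ q - 1‖ ≤ 2 * ρ ^ q := by
      refine (norm_sub_le _ _).trans ?_
      rw [norm_pow, norm_one]
      have h2 : ‖ζ‖ ^ q ≤ ρ ^ q := by gcongr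
      have h3 : 1 ≤ ρ ^ q := one_le_pow₀ hρ
      linarith
    calc ‖ζ ^ q - 1‖ ^ k ≤ (2 * ρ ^ q) ^ k := by gcongr
      _ = 2 ^ k * ρ ^ (q * k) := by rw [mul_pow, ← pow_mul ρ q k]

end Pool.Agent.H467Z.Fek
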