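import Pool.Agent.H467Z.Fek.Local

set_option autoImplicit false

namespace Pool.Agent.H467Z.Fek

open Polynomial Metric Set Finset

/-- The invariant of the construction. -/
def Inv (E : Set ℂ) : Prop :=
  IsCompact E ∧ closedBall (0 : ℂ) 1 ⊆ E ∧
    (∃ σ : ℝ, 0 < σ ∧ ∀ w ∈ E, ‖w‖ ≤ 1 ∨ ‖w + 1‖ ≤ 2 - σ) ∧
    ∃ ρ : ℝ, 0 < ρ ∧ ∀ k ∈ E, ∃ (a : ℂ) (ρ' : ℝ), ρ ≤ ρ' ∧ k ∈ closedBall a ρ' ∧ closedBall a ρ' ⊆ E

/-- Failure of the mesh inequality with constant `J`, for all `c ≤ J`. -/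
def BadAt (J : ℕ) (K : Set ℂ) : Prop :=
  ∀ c : ℝ, 1 < c → c ≤ J → ∃ (n : ℕ) (p : ℂ[X]) (z : ℂ), z ∈ K ∧ p.natDegree ≤ n ∧
    (J : ℝ) ≤ ‖p.eval z‖ ∧ ∀ x : Fin (⌈c * (n : ℝ)⌉₊ + 1) → ℂ, (∀ i, x i ∈ K) → Ex K x →
      ∀ i, ‖p.eval (x i)‖ ≤ 1

lemma exists_unit (σ : ℝ) (hσ : 0 < σ) :
    ∃ (u : ℂ) (τ : ℝ), 0 < τ ∧ ‖u‖ = 1 ∧ ‖u - 1‖ ≤ σ ∧ ‖u + 1‖ ≤ 2 - τ := by
  set τ : ℝ := min (σ ^ 2 / 2) 1 with hτ
  have h0 : 0 < τ := lt_min (by positivity) one_pos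
  have h1 : τ ≤ 1 := min_le_right _ _
  have h2 : τ ≤ σ ^ 2 / 2 := min_le_left _ _
  have h3 : 0 ≤ 1 - (1 - τ) ^ 2 := by nlinarith
  have h4 := Real.sq_sqrt h3
  set y := Real.sqrt (1 - (1 - τ) ^ 2) with hy
  refine ⟨⟨1 - τ, y⟩, τ / 2, by positivity, ?_, ?_, ?_⟩
  · rw [← sq_eq_sq₀ (norm_nonneg _) zero_le_one, Complex.sq_norm, Complex.normSq_apply]
    simp only
    nlinarith
  · rw [← sq_le_sq₀ (norm_nonneg _) hσ.le, Complex.sq_norm, Complex.normSq_apply]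
    simp only [Complex.sub_re, Complex.one_re, Complex.sub_im, Complex.one_im]
    nlinarith
  · rw [← sq_le_sq₀ (norm_nonneg _) (by linarith), Complex.sq_norm, Complex.normSq_apply]
    simp only [Complex.add_re, Complex.one_re, Complex.add_im, Complex.one_im]
    nlinarith

lemma global_step (E : Set ℂ) (hE : Inv E) (η : ℝ) (hη : 0 < η) (J : ℕ) (hJ : 1 ≤ J) :
    ∃ (E₁ : Set ℂ) (η₁ : ℝ), Inv E₁ ∧ 0 < η₁ ∧ η₁ ≤ η / 2 ∧ E ⊆ E₁ ∧
      E₁ ⊆ E ∪ closedBall 0 (1 + η) ∧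
      ∀ K : Set ℂ, E₁ ⊆ K → K ⊆ E₁ ∪ closedBall 0 (1 + η₁) → BadAt J K := by
  obtain ⟨hEc, hE1, ⟨σ, hσ, hσE⟩, ρ0, hρ0, hρE⟩ := hE
  obtain ⟨u, τ, hτ, hu, hu1, hu2⟩ := exists_unit σ hσ
  set t : ℝ := min (η / 3) (τ / 4) with ht
  have ht0 : 0 < t := lt_min (by positivity) (by positivity)
  have ht1 : t ≤ η / 3 := min_le_left _ _
  have ht2 : t ≤ τ / 4 := min_le_right _ _
  set z : ℂ := ((1 + t : ℝ) : ℂ) * u with hz
  have hzu : ‖z - u‖ = t := by
    rw [show z - u = (t : ℝ) * u by rw [hz]; push_cast; ring, norm_mul, hu, Complex.norm_real,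
      Real.norm_eq_abs, abs_of_pos ht0, mul_one]
  obtain ⟨Γ, hΓf, hzΓ, hΓb, m0, p, hpd, hpz, hp⟩ := local_step E hE1 z (-u) 2 two_pos
    (fun w hw => by
      rw [sub_neg_eq_add]
      rcases hσE w hw with h | h
      · exact (norm_add_le _ _).trans (by linarith)
      · calc ‖w + u‖ = ‖(w + 1) + (u - 1)‖ := by ring_nf
          _ ≤ _ := (norm_add_le _ _).trans (by linarith))
    (by
      rw [show z - -u = ((2 + t : ℝ) : ℂ) * u by rw [hz]; push_cast; ring, norm_mul, hu,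
        Complex.norm_real, Real.norm_eq_abs, abs_of_pos (by linarith)]
      linarith) t ht0 J hJ
  have hK0 : IsCompact (E ∪ Γ) := hEc.union hΓf.isCompact
  have hper : ∀ m : ℕ, ∃ ε : ℝ, 0 < ε ∧ (m0 ≤ m → m ≤ m0 + J → ∀ x : Fin (m + 1) → ℂ,
      (∀ i, x i ∈ cthickening ε (E ∪ Γ)) → Ex (E ∪ Γ) x → ∀ i, ‖p.eval (x i)‖ < 1) := by
    intro m
    by_cases h : m0 ≤ m ∧ m ≤ m0 + J
    · obtain ⟨ε, h1, h2⟩ := perturb (ι := Fin (m + 1)) (E ∪ Γ) hK0 (fun w => ‖p.eval w‖)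
        p.continuous.norm (hp m h.1 h.2)
      exact ⟨ε, h1, fun _ _ => h2⟩
    · exact ⟨1, one_pos, fun h1 h2 => absurd ⟨h1, h2⟩ h⟩
  choose ε hε0 hε using hper
  obtain ⟨ε0, hε00, hε01⟩ := exists_pos_lb (Finset.range (m0 + J + 1)) ε (fun m _ => hε0 m)
  set ρ : ℝ := min ε0 t with hρ
  have hρp : 0 < ρ := lt_min hε00 ht0
  set G : Set ℂ := ⋃ γ ∈ Γ, closedBall γ ρ with hG
  have hGb : ∀ w ∈ G, ‖w - u‖ ≤ 3 * t := by
    intro w hw
    simp only [hG, Set.mem_iUnion] at hw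
    obtain ⟨γ, hγ, hw⟩ := hw
    have a1 := hΓb hγ
    rw [mem_closedBall, dist_eq_norm] at hw a1
    have a2 : ρ ≤ t := min_le_right _ _
    calc ‖w - u‖ = ‖(w - γ) + (γ - z) + (z - u)‖ := by ring_nf
      _ ≤ ‖w - γ‖ + ‖γ - z‖ + ‖z - u‖ := norm_add₃_le
      _ ≤ 3 * t := by linarith
  have hΓG : Γ ⊆ G := by
    intro γ hγ
    simp only [hG, Set.mem_iUnion]
    exact ⟨γ, hγ, mem_closedBall_self hρp.le⟩
  refine ⟨E ∪ G, min ε0 (η / 2), ⟨hEc.union (hΓf.isCompact_biUnion fun γ _ =>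
    isCompact_closedBall γ ρ), hE1.trans Set.subset_union_left,
    ⟨min σ (τ / 4), lt_min hσ (by positivity), ?_⟩, min ρ0 ρ, lt_min hρ0 hρp, ?_⟩,
    lt_min hε00 (by positivity), min_le_right _ _, Set.subset_union_left, ?_, ?_⟩
  · rintro w (hw | hw)
    · rcases hσE w hw with h | h
      · exact Or.inl h
      · exact Or.inr (h.trans (by have := min_le_left σ (τ / 4); linarith))
    · right
      have a1 := hGb w hw
      have a2 := min_le_right σ (τ / 4)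
      calc ‖w + 1‖ = ‖(w - u) + (u + 1)‖ := by ring_nf
        _ ≤ _ := (norm_add_le _ _).trans (by linarith)
  · rintro w (hw | hw)
    · obtain ⟨a, ρ', h1, h2, h3⟩ := hρE w hw
      exact ⟨a, ρ', (min_le_left _ _).trans h1, h2, h3.trans Set.subset_union_left⟩
    · simp only [hG, Set.mem_iUnion] at hw
      obtain ⟨γ, hγ, hw⟩ := hw
      refine ⟨γ, ρ, min_le_right _ _, hw, fun v hv => Or.inr ?_⟩
      simp only [hG, Set.mem_iUnion]
      exact ⟨γ, hγ, hv⟩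
  · rintro w (hw | hw)
    · exact Or.inl hw
    · right
      have a1 := hGb w hw
      rw [mem_closedBall, dist_zero_right]
      calc ‖w‖ = ‖(w - u) + u‖ := by ring_nf
        _ ≤ _ := (norm_add_le _ _).trans (by linarith)
  · intro K hK1 hK2 c hc1 hc2
    have hc0 : 0 < c := by linarith
    have hsub : E ∪ Γ ⊆ K := (Set.union_subset_union_right E hΓG).trans hK1
    have hKth : K ⊆ cthickening ε0 (E ∪ Γ) := by
      refine hK2.trans ?_
      rintro w ((hw | hw) | hw)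
      · exact self_subset_cthickening _ (Or.inl hw)
      · simp only [hG, Set.mem_iUnion] at hw
        obtain ⟨γ, hγ, hw⟩ := hw
        have hγ' : γ ∈ E ∪ Γ := Or.inr hγ
        exact closedBall_subset_cthickening hγ' ε0
          (closedBall_subset_closedBall (min_le_left _ _) hw)
      · refine cthickening_subset_of_subset ε0 (hE1.trans Set.subset_union_left) ?_
        rw [cthickening_closedBall hε00.le zero_le_one]
        refine closedBall_subset_closedBall ?_ hw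
        have := min_le_left ε0 (η / 2)
        linarith
    set n : ℕ := ⌈(m0 : ℝ) / c⌉₊ with hn
    have hn1 : (m0 : ℝ) / c ≤ n := Nat.le_ceil _
    have hn2 : (n : ℝ) < m0 / c + 1 := Nat.ceil_lt_add_one (by positivity)
    have hm1 : m0 ≤ ⌈c * (n : ℝ)⌉₊ := by
      rw [div_le_iff₀ hc0] at hn1
      have : (m0 : ℝ) ≤ (⌈c * (n : ℝ)⌉₊ : ℝ) := by
        have := Nat.le_ceil (c * (n : ℝ))
        linarith
      exact_mod_cast this
    have hm2 : ⌈c * (n : ℝ)⌉₊ ≤ m0 + J := by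
      rw [Nat.ceil_le]
      push_cast
      have : c * (n : ℝ) ≤ c * (m0 / c + 1) := by gcongr
      rw [mul_add, mul_div_cancel₀ _ hc0.ne'] at this
      linarith
    refine ⟨n, p, z, hsub (Or.inr hzΓ), ?_, hpz, fun x hx hEx i => le_of_lt ?_⟩
    · have a1 : (J : ℝ) * p.natDegree ≤ m0 := by exact_mod_cast hpd
      have a2 : (p.natDegree : ℝ) ≤ m0 / c := by
        rw [le_div_iff₀ hc0]
        have : (0 : ℝ) ≤ p.natDegree := by positivity
        nlinarith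
      exact_mod_cast a2.trans hn1
    · refine hε _ hm1 hm2 x (fun j => cthickening_mono
        (hε01 _ (Finset.mem_range.mpr (by omega))) _ (hKth (hx j))) ?_ i
      intro j w hw
      exact hEx j w (hsub hw)

lemma inv_ball : Inv (closedBall (0 : ℂ) 1) :=
  ⟨isCompact_closedBall _ _, subset_rfl, ⟨1, one_pos, fun w hw => Or.inl (by simpa using hw)⟩,
    1, one_pos, fun k hk => ⟨0, 1, le_rfl, hk, subset_rfl⟩⟩

theorem exists_set : ∃ K : Set ℂ, IsCompact K ∧ closedBall (0 : ℂ) 1 ⊆ K ∧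
    (∀ η : ℝ, 0 < η → ∃ ρ : ℝ, 0 < ρ ∧ ∀ k ∈ K, ‖k‖ ≤ 1 + η ∨
      ∃ (a : ℂ) (ρ' : ℝ), ρ ≤ ρ' ∧ k ∈ closedBall a ρ' ∧ closedBall a ρ' ⊆ K) ∧
    ∀ J : ℕ, 1 ≤ J → BadAt J K := by
  let S := {s : Set ℂ × ℝ // Inv s.1 ∧ 0 < s.2}
  have hstep : ∀ (j : ℕ) (s : S), ∃ s' : S, s'.1.2 ≤ s.1.2 / 2 ∧ s.1.1 ⊆ s'.1.1 ∧
      s'.1.1 ⊆ s.1.1 ∪ closedBall 0 (1 + s.1.2) ∧
      ∀ K : Set ℂ, s'.1.1 ⊆ K → K ⊆ s'.1.1 ∪ closedBall 0 (1 + s'.1.2) → BadAt (j + 1) K := by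
    intro j s
    obtain ⟨E₁, η₁, h1, h2, h3⟩ := global_step s.1.1 s.2.1 s.1.2 s.2.2 (j + 1) (by omega)
    exact ⟨⟨(E₁, η₁), h1, h2⟩, h3⟩
  choose f hf using hstep
  let seq : ℕ → S := fun n => Nat.rec ⟨(closedBall 0 1, 1), inv_ball, one_pos⟩ f n
  have hseq : ∀ n, seq (n + 1) = f n (seq n) := fun n => rfl
  let E : ℕ → Set ℂ := fun n => (seq n).1.1
  let η : ℕ → ℝ := fun n => (seq n).1.2
  have hInv : ∀ n, Inv (E n) := fun n => (seq n).2.1
  have hη0 : ∀ n, 0 < η n := fun n => (seq n).2.2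
  have hη1 : ∀ n, η (n + 1) ≤ η n / 2 := fun n => (hf n (seq n)).1
  have hE1 : ∀ n, E n ⊆ E (n + 1) := fun n => (hf n (seq n)).2.1
  have hE2 : ∀ n, E (n + 1) ⊆ E n ∪ closedBall 0 (1 + η n) := fun n => (hf n (seq n)).2.2.1
  have hE3 : ∀ n K, E (n + 1) ⊆ K → K ⊆ E (n + 1) ∪ closedBall 0 (1 + η (n + 1)) →
      BadAt (n + 1) K := fun n => (hf n (seq n)).2.2.2
  have hEm : Monotone E := monotone_nat_of_le_succ hE1
  have hηa : Antitone η := antitone_nat_of_succ_le fun n => by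
    have := hη1 n
    have := hη0 n
    linarith
  have hηp : ∀ n, η n ≤ (1 / 2) ^ n := by
    intro n
    induction n with
    | zero => exact le_of_eq rfl
    | succ n ih =>
      have := hη1 n
      rw [pow_succ]
      linarith
  have hsub : ∀ i j, E j ⊆ E i ∪ closedBall 0 (1 + η i) := by
    intro i j
    rcases le_total j i with h | h
    · exact (hEm h).trans Set.subset_union_left
    · induction j, h using Nat.le_induction with
      | base => exact Set.subset_union_left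
      | succ j hj ih =>
        refine (hE2 j).trans (Set.union_subset ih ?_)
        refine (closedBall_subset_closedBall ?_).trans Set.subset_union_right
        have := hηa hj
        linarith
  let K : Set ℂ := ⋂ i, (E i ∪ closedBall 0 (1 + η i))
  have hEK : ∀ j, E j ⊆ K := fun j => Set.subset_iInter fun i => hsub i j
  have hKE : ∀ i, K ⊆ E i ∪ closedBall 0 (1 + η i) := fun i => Set.iInter_subset _ i
  refine ⟨K, ?_, (hInv 0).2.1.trans (hEK 0), ?_, ?_⟩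
  · refine ((hInv 0).1.union (isCompact_closedBall _ _)).of_isClosed_subset ?_ (hKE 0)
    exact isClosed_iInter fun i => (hInv i).1.isClosed.union isClosed_closedBall
  · intro e he
    obtain ⟨n, hn⟩ := exists_pow_lt_of_lt_one he (by norm_num : (1 / 2 : ℝ) < 1)
    obtain ⟨ρ, hρ, h⟩ := (hInv n).2.2.2
    refine ⟨ρ, hρ, fun k hk => ?_⟩
    rcases hKE n hk with h1 | h1
    · obtain ⟨a, ρ', h2, h3, h4⟩ := h k h1
      exact Or.inr ⟨a, ρ', h2, h3, h4.trans (hEK n)⟩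
    · left
      rw [mem_closedBall, dist_zero_right] at h1
      have := hηp n
      linarith
  · intro J hJ
    obtain ⟨n, rfl⟩ : ∃ n, J = n + 1 := ⟨J - 1, by omega⟩
    exact hE3 n K (hEK (n + 1)) (hKE (n + 1))

end Pool.Agent.H467Z.Fek
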