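import Pool.Agent.H467Z.Fek.Basic

set_option autoImplicit false

namespace Pool.Agent.H467Z.Fek

open Polynomial Metric Set Finset Filter Topology

lemma growth (E : Set ℂ) (hE : closedBall (0 : ℂ) 1 ⊆ E) (z : ℂ) (q : ℂ[X])
    (hq : ∀ w ∈ E, ‖q.eval w‖ ≤ 1) (hqz : 1 < ‖q.eval z‖) :
    ∃ g : ℝ, 0 < g ∧
      (∀ (p : ℂ[X]) (d : ℕ), 1 ≤ d → p.natDegree ≤ d → (∀ w ∈ E, ‖p.eval w‖ ≤ 1) →
        ‖p.eval z‖ ≤ Real.exp (d * g)) ∧
      ∀ g' : ℝ, 0 ≤ g' → g' < g → ∃ (p : ℂ[X]) (d : ℕ), 1 ≤ d ∧ p.natDegree ≤ d ∧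
        (∀ w ∈ E, ‖p.eval w‖ ≤ 1) ∧ Real.exp (d * g') < ‖p.eval z‖ := by
  let S : Set ℝ := {x | ∃ (p : ℂ[X]) (d : ℕ), 1 ≤ d ∧ p.natDegree ≤ d ∧
    (∀ w ∈ E, ‖p.eval w‖ ≤ 1) ∧ x = Real.log ‖p.eval z‖ / d}
  have hbdd : BddAbove S := by
    refine ⟨Real.log (max 1 ‖z‖), ?_⟩
    rintro x ⟨p, d, hd, hp, hb, rfl⟩
    have hd' : (0 : ℝ) < d := by exact_mod_cast hd
    have h1 := bw_unit p d hp (fun w hw => hb w (hE hw)) z (max 1 ‖z‖) (le_max_left _ _)
      (le_max_right _ _)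
    rw [div_le_iff₀ hd', mul_comm, ← Real.log_pow]
    rcases (norm_nonneg (p.eval z)).eq_or_lt with h0 | h0
    · rw [← h0, Real.log_zero]
      exact Real.log_nonneg (one_le_pow₀ (le_max_left _ _))
    · exact Real.log_le_log h0 h1
  have hmem : Real.log ‖q.eval z‖ / ((q.natDegree + 1 : ℕ) : ℝ) ∈ S :=
    ⟨q, q.natDegree + 1, by omega, by omega, hq, rfl⟩
  refine ⟨sSup S, lt_of_lt_of_le ?_ (le_csSup hbdd hmem), ?_, ?_⟩
  · have := Real.log_pos hqz
    positivity
  · intro p d hd hp hb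
    have hd' : (0 : ℝ) < d := by exact_mod_cast hd
    have h1 : Real.log ‖p.eval z‖ / d ≤ sSup S := le_csSup hbdd ⟨p, d, hd, hp, hb, rfl⟩
    rw [div_le_iff₀ hd', mul_comm] at h1
    rcases (norm_nonneg (p.eval z)).eq_or_lt with h0 | h0
    · rw [← h0]
      exact (Real.exp_pos _).le
    · rw [← Real.exp_log h0]
      exact Real.exp_le_exp.mpr h1
  · intro g' hg0 hg'
    obtain ⟨x, ⟨p, d, hd, hp, hb, rfl⟩, hx⟩ := exists_lt_of_lt_csSup ⟨_, hmem⟩ hg'
    have hd' : (0 : ℝ) < d := by exact_mod_cast hd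
    refine ⟨p, d, hd, hp, hb, ?_⟩
    rw [lt_div_iff₀ hd', mul_comm] at hx
    rcases (norm_nonneg (p.eval z)).eq_or_lt with h0 | h0
    · rw [← h0, Real.log_zero] at hx
      have : 0 ≤ (d : ℝ) * g' := by positivity
      linarith
    · rw [← Real.exp_log h0]
      exact Real.exp_lt_exp.mpr hx

lemma ev_lin (a b c ε : ℝ) (hc : 0 < c) (hε : 0 < ε) :
    ∀ᶠ R : ℝ in atTop, (a * R + b) * Real.exp (-(c * R)) < ε := by
  have h0 : Tendsto (fun R : ℝ => c * R) atTop atTop := tendsto_id.const_mul_atTop hc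
  have h1 := (Real.tendsto_pow_mul_exp_neg_atTop_nhds_zero 1).comp h0
  have h2 := (Real.tendsto_pow_mul_exp_neg_atTop_nhds_zero 0).comp h0
  have h3 := (h1.const_mul (a / c)).add (h2.const_mul b)
  simp only [mul_zero, add_zero] at h3
  have h4 : Tendsto (fun R : ℝ => (a * R + b) * Real.exp (-(c * R))) atTop (𝓝 0) := by
    refine h3.congr fun R => ?_
    simp only [Function.comp, pow_one, pow_zero, one_mul]
    field_simp
  exact h4.eventually (gt_mem_nhds hε)

lemma ev_lin' (b c : ℝ) (hc : 0 < c) : ∀ᶠ R : ℝ in atTop, b < c * R :=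
  (tendsto_id.const_mul_atTop hc).eventually (eventually_gt_atTop b)

lemma params (M k d0 J : ℕ) (hM1 : 1 ≤ M) (hd0 : 1 ≤ d0) (g gq c1 c2 c3 c4 c5 α B r1 : ℝ)
    (hg : 0 < g) (hgq : 0 < gq) (hM : J * k * g / gq + 1 ≤ M) (h1 : 0 < c1) (h2 : 0 < c2)
    (h3 : 0 < c3) (h4 : 0 < c4) (h5 : 0 < c5) (hα : 0 < α) (hB : 0 < B) (hr1 : 0 < r1) :
    ∃ r : ℝ, 0 < r ∧ r ≤ r1 ∧ ∃ m0 t' : ℕ, 1 ≤ m0 ∧ J * (t' + k) ≤ m0 ∧
      c4 * (B / r) ^ k < Real.exp (t' * gq) ∧ t' * r ≤ c5 ∧
      ∀ m : ℕ, m0 ≤ m → m ≤ m0 + J → Real.exp (m * g) < (c1 / r) ^ M ∧ m * r ≤ c2 ∧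
        ∃ t : ℕ, t * d0 + M ≤ m ∧
          (m + 1) * c3 < Real.exp (d0 * (g * (1 - 1 / (4 * M)))) ^ t * (r * α) ^ (M - 1) := by
  have hM1' : (1 : ℝ) ≤ M := by exact_mod_cast hM1
  set μ : ℝ := (M - 1 / 2) / g with hμ
  have hμ0 : 0 < μ := div_pos (by linarith) hg
  have hμg : μ * g = M - 1 / 2 := by rw [hμ]; field_simp
  set A : ℝ := |k * Real.log B + Real.log c4| + 1 with hA
  have hA0 : 0 < A := by positivity
  set c6 : ℝ := c3 * Real.exp ((M + d0) * g) / α ^ (M - 1) with hc6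
  obtain ⟨R, hR0, e0, e1, e2, e3, e3', e5, e6⟩ := ((eventually_gt_atTop (0 : ℝ)).and
    ((ev_lin 0 1 1 r1 one_pos hr1).and
    ((ev_lin' ((1 + J) * g - M * Real.log c1) (1 / 2) (by norm_num)).and
    ((ev_lin μ (1 + J) 1 c2 one_pos h2).and
    ((ev_lin' M μ hμ0).and
    ((ev_lin (μ * c6) ((2 + J) * c6) (1 / 4) 1 (by norm_num) one_pos).and
    ((ev_lin (k / gq) (A / gq + 1) 1 c5 one_pos h5).and
    (ev_lin' (J * (A / gq + 1 + k)) (1 / (2 * g)) (by positivity))))))))).exists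
  simp only [one_mul, zero_mul, zero_add] at e0 e2 e5
  set r : ℝ := Real.exp (-R) with hr
  have hr0 : 0 < r := Real.exp_pos _
  have hm0a : μ * R ≤ (⌈μ * R⌉₊ : ℝ) := Nat.le_ceil _
  have hm0b : (⌈μ * R⌉₊ : ℝ) < μ * R + 1 := Nat.ceil_lt_add_one (by positivity)
  have hta : (k * R + A) / gq ≤ (⌈(k * R + A) / gq⌉₊ : ℝ) := Nat.le_ceil _
  have htb : (⌈(k * R + A) / gq⌉₊ : ℝ) < (k * R + A) / gq + 1 :=
    Nat.ceil_lt_add_one (by positivity)
  refine ⟨r, hr0, e0.le, ⌈μ * R⌉₊, ⌈(k * R + A) / gq⌉₊, ?_, ?_, ?_, ?_, ?_⟩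
  · exact Nat.one_le_ceil_iff.mpr (by positivity)
  · have hJ : (0 : ℝ) ≤ J := by positivity
    have hk1 : J * k / gq + 1 / (2 * g) ≤ μ := by
      rw [hμ, le_div_iff₀ hg]
      have : (J * k / gq + 1 / (2 * g)) * g = J * k * g / gq + 1 / 2 := by field_simp
      rw [this]
      linarith
    have : (J : ℝ) * ((⌈(k * R + A) / gq⌉₊ : ℝ) + k) ≤ (⌈μ * R⌉₊ : ℝ) := by
      calc (J : ℝ) * ((⌈(k * R + A) / gq⌉₊ : ℝ) + k) ≤ J * ((k * R + A) / gq + 1 + k) := by
            gcongr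
        _ = J * k / gq * R + J * (A / gq + 1 + k) := by field_simp; ring
        _ ≤ J * k / gq * R + 1 / (2 * g) * R := by linarith
        _ = (J * k / gq + 1 / (2 * g)) * R := by ring
        _ ≤ μ * R := by gcongr
        _ ≤ _ := hm0a
    exact_mod_cast this
  · have e : c4 * (B / r) ^ k = Real.exp (k * R + (k * Real.log B + Real.log c4)) := by
      rw [Real.exp_add, Real.exp_add, Real.exp_log h4, Real.exp_nat_mul, Real.exp_nat_mul,
        Real.exp_log hB, hr, Real.exp_neg, div_inv_eq_mul, mul_pow]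
      ring
    rw [e, Real.exp_lt_exp]
    rw [div_le_iff₀ hgq] at hta
    have := le_abs_self (k * Real.log B + Real.log c4)
    linarith
  · calc (⌈(k * R + A) / gq⌉₊ : ℝ) * r ≤ ((k * R + A) / gq + 1) * r := by gcongr
      _ = (k / gq * R + (A / gq + 1)) * r := by ring
      _ ≤ c5 := e5.le
  · intro m hm1 hm2
    have hm1' : μ * R ≤ m := hm0a.trans (by exact_mod_cast hm1)
    have hm2' : (m : ℝ) ≤ μ * R + (1 + J) := by
      have : (m : ℝ) ≤ (⌈μ * R⌉₊ : ℝ) + J := by exact_mod_cast hm2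
      linarith
    refine ⟨?_, ?_, (m - M) / d0, ?_, ?_⟩
    · have e : (c1 / r) ^ M = Real.exp (M * (R + Real.log c1)) := by
        rw [Real.exp_nat_mul, Real.exp_add, Real.exp_log h1, hr, Real.exp_neg, div_inv_eq_mul,
          mul_comm]
      rw [e, Real.exp_lt_exp]
      calc (m : ℝ) * g ≤ (μ * R + (1 + J)) * g := by gcongr
        _ = μ * g * R + (1 + J) * g := by ring
        _ < M * (R + Real.log c1) := by rw [hμg]; linarith
    · calc (m : ℝ) * r ≤ (μ * R + (1 + J)) * r := by gcongr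
        _ ≤ c2 := e2.le
    · have hMm : M ≤ m := by
        have : (M : ℝ) ≤ m := by linarith
        exact_mod_cast this
      have := Nat.div_mul_le_self (m - M) d0
      omega
    · have hMm : M ≤ m := by
        have : (M : ℝ) ≤ m := by linarith
        exact_mod_cast this
      set t := (m - M) / d0 with ht
      have ht1 : m ≤ t * d0 + M + d0 := by
        have := Nat.lt_div_mul_add (a := m - M) (b := d0) (by omega)
        rw [← ht] at this
        omega
      have ht2 : μ * R - (M + d0) ≤ (t : ℝ) * d0 := by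
        have : (m : ℝ) ≤ t * d0 + M + d0 := by exact_mod_cast ht1
        linarith
      have hη : (0 : ℝ) < 1 - 1 / (4 * M) := by
        rw [sub_pos, div_lt_one (by positivity)]
        linarith
      have hη1 : 1 - 1 / (4 * (M : ℝ)) ≤ 1 := by
        have : (0 : ℝ) < 1 / (4 * M) := by positivity
        linarith
      have hkey : (M - 3 / 4) * R - (M + d0) * g ≤ t * (d0 * (g * (1 - 1 / (4 * M)))) := by
        have a1 : (M - 3 / 4 : ℝ) ≤ (M - 1 / 2) * (1 - 1 / (4 * M)) := by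
          have : ((M : ℝ) - 1 / 2) * (1 - 1 / (4 * M)) = M - 3 / 4 + 1 / (8 * M) := by
            field_simp; ring
          rw [this]
          have : (0 : ℝ) < 1 / (8 * M) := by positivity
          linarith
        calc (M - 3 / 4) * R - (M + d0) * g
            ≤ (M - 1 / 2) * (1 - 1 / (4 * M)) * R - (M + d0) * (g * (1 - 1 / (4 * M))) := by
              have b1 : (M - 3 / 4) * R ≤ (M - 1 / 2) * (1 - 1 / (4 * M)) * R := by gcongr
              have b2 : (M + d0) * (g * (1 - 1 / (4 * M))) ≤ (M + d0) * g := by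
                have : g * (1 - 1 / (4 * M)) ≤ g := mul_le_of_le_one_right hg.le hη1
                gcongr
              linarith
          _ = (μ * R - (M + d0)) * (g * (1 - 1 / (4 * M))) := by rw [← hμg]; ring
          _ ≤ (t * d0) * (g * (1 - 1 / (4 * M))) := by gcongr
          _ = _ := by ring
      have hrp : r ^ (M - 1) = Real.exp (-((M - 1) * R)) := by
        rw [hr, ← Real.exp_nat_mul]
        congr 1
        rw [Nat.cast_sub hM1]
        push_cast
        ring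
      have hαp : 0 < α ^ (M - 1) := by positivity
      have e7 : (m + 1) * c6 * Real.exp (-(1 / 4 * R)) < 1 := by
        have hc60 : 0 < c6 := by rw [hc6]; positivity
        refine lt_of_le_of_lt ?_ e3'
        have : (m + 1) * c6 ≤ μ * c6 * R + (2 + J) * c6 := by
          calc (m + 1) * c6 ≤ (μ * R + (2 + J)) * c6 :=
              mul_le_mul_of_nonneg_right (by linarith) hc60.le
            _ = _ := by ring
        gcongr
      rw [← Real.exp_nat_mul, mul_pow, hrp]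
      have e8 : (m + 1) * c3 = ((m + 1) * c6 * Real.exp (-(1 / 4 * R))) *
          (Real.exp ((M - 3 / 4) * R - (M + d0) * g) *
            (Real.exp (-((M - 1) * R)) * α ^ (M - 1))) := by
        have e9 : Real.exp ((M + d0) * g) * Real.exp (-(1 / 4 * R)) *
            Real.exp ((M - 3 / 4) * R - (M + d0) * g) * Real.exp (-((M - 1) * R)) = 1 := by
          rw [← Real.exp_add, ← Real.exp_add, ← Real.exp_add, Real.exp_eq_one_iff]
          ring
        rw [hc6]
        generalize Real.exp ((M + d0) * g) = u1 at e9 ⊢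
        generalize Real.exp (-(1 / 4 * R)) = u2 at e9 ⊢
        generalize Real.exp ((M - 3 / 4) * R - (M + d0) * g) = u3 at e9 ⊢
        generalize Real.exp (-((M - 1) * R)) = u4 at e9 ⊢
        generalize α ^ (M - 1) = u5 at hαp ⊢
        calc ((m : ℝ) + 1) * c3 = (m + 1) * c3 * (u1 * u2 * u3 * u4) := by rw [e9, mul_one]
          _ = _ := by field_simp
      rw [e8]
      calc _ < 1 * (Real.exp ((M - 3 / 4) * R - (M + d0) * g) *
            (Real.exp (-((M - 1) * R)) * α ^ (M - 1))) := by gcongr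
        _ ≤ _ := by
          rw [one_mul]
          gcongr

end Pool.Agent.H467Z.Fek
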