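import Pool.Agent.H467Z.Fek.Avoid
import Pool.Agent.H467Z.Fek.Params
import Pool.Agent.H467Z.Fek.Gadget

set_option autoImplicit false

namespace Pool.Agent.H467Z.Fek

open Polynomial Metric Set Finset

lemma exists_pos_lb {κ : Type} (s : Finset κ) (f : κ → ℝ) (h : ∀ i ∈ s, 0 < f i) :
    ∃ α : ℝ, 0 < α ∧ ∀ i ∈ s, α ≤ f i := by
  rcases s.eq_empty_or_nonempty with rfl | hs
  · exact ⟨1, one_pos, by simp⟩
  · obtain ⟨i, hi, hmin⟩ := Finset.exists_min_image s f hs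
    exact ⟨f i, h i hi, hmin⟩

lemma infinite_of_ball {E : Set ℂ} (hE : closedBall (0 : ℂ) 1 ⊆ E) : E.Infinite :=
  (infinite_of_mem_nhds (0 : ℂ) (closedBall_mem_nhds 0 one_pos)).mono hE

lemma local_step (E : Set ℂ) (hE : closedBall (0 : ℂ) 1 ⊆ E) (z a : ℂ) (R0 : ℝ) (hR0 : 0 < R0)
    (hEa : ∀ w ∈ E, ‖w - a‖ ≤ R0) (hz : R0 < ‖z - a‖) (δ : ℝ) (hδ : 0 < δ) (J : ℕ) (hJ : 1 ≤ J) :
    ∃ Γ : Set ℂ, Γ.Finite ∧ z ∈ Γ ∧ Γ ⊆ closedBall z δ ∧ ∃ (m0 : ℕ) (p : ℂ[X]),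
      J * p.natDegree ≤ m0 ∧ (J : ℝ) ≤ ‖p.eval z‖ ∧ ∀ m : ℕ, m0 ≤ m → m ≤ m0 + J →
        ∀ x : Fin (m + 1) → ℂ, (∀ i, x i ∈ E ∪ Γ) → Ex (E ∪ Γ) x → ∀ i, ‖p.eval (x i)‖ < 1 := by
  classical
  have hJ' : (1 : ℝ) ≤ J := by exact_mod_cast hJ
  set D : ℝ := ‖z - a‖ with hD
  have hD0 : 0 < D := by linarith
  let q : ℂ[X] := C ((1 / R0 : ℝ) : ℂ) * (X - C a)
  have hqe : ∀ w, ‖q.eval w‖ = ‖w - a‖ / R0 := by
    intro w
    simp only [q, eval_mul, eval_C, eval_sub, eval_X, norm_mul]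
    rw [Complex.norm_real, Real.norm_eq_abs, abs_of_pos (by positivity)]
    ring
  have hqd : q.natDegree ≤ 1 := (natDegree_C_mul_le _ _).trans (natDegree_X_sub_C a).le
  have hqE : ∀ w ∈ E, ‖q.eval w‖ ≤ 1 := fun w hw => by
    rw [hqe, div_le_one hR0]; exact hEa w hw
  have hq1 : 1 < D / R0 := by rw [lt_div_iff₀ hR0]; linarith
  obtain ⟨g, hg0, hga, hgb⟩ := growth E hE z q hqE (by rw [hqe]; exact hq1)
  set gq : ℝ := Real.log (D / R0) with hgq
  have hgq0 : 0 < gq := Real.log_pos hq1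
  set k : ℕ := J + 2 with hk
  set s : ℕ := ⌈(J : ℝ) * k * g / gq⌉₊ + 1 with hs
  obtain ⟨q', Y, hq', hYc, hY0, hY, Q, hQd, hQ0, hQY, hQb⟩ := gadget k s (by omega)
  set M : ℕ := q' * s with hM
  have hM1 : 1 ≤ M := Nat.mul_pos hq' (by omega)
  have hM1' : (1 : ℝ) ≤ M := by exact_mod_cast hM1
  have hMk : (J : ℝ) * ((q' * k : ℕ) : ℝ) * g / gq + 1 ≤ M := by
    have a1 : (J : ℝ) * k * g / gq + 1 ≤ s := by
      rw [hs]
      push_cast
      have := Nat.le_ceil ((J : ℝ) * k * g / gq)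
      linarith
    have a2 : (1 : ℝ) ≤ q' := by exact_mod_cast hq'
    rw [hM]
    push_cast
    calc (J : ℝ) * (q' * k) * g / gq + 1 ≤ q' * (J * k * g / gq) + q' := by
          have : (J : ℝ) * (q' * k) * g / gq = q' * (J * k * g / gq) := by ring
          linarith
      _ = q' * (J * k * g / gq + 1) := by ring
      _ ≤ q' * s := by gcongr
  set d : ℝ := D - R0 with hd
  have hd0 : 0 < d := by linarith
  set B : ℝ := D + R0 + 1 with hB
  have hB0 : 0 < B := by linarith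
  have hdE : ∀ w ∈ E, d ≤ ‖w - z‖ := by
    intro w hw
    have a1 : ‖z - a‖ ≤ ‖w - a‖ + ‖w - z‖ := by
      calc ‖z - a‖ = ‖(w - a) - (w - z)‖ := by ring_nf
        _ ≤ _ := norm_sub_le _ _
    have := hEa w hw
    linarith
  have hBE : ∀ w ∈ E, ‖w - z‖ ≤ B := by
    intro w hw
    have a1 : ‖w - z‖ ≤ ‖w - a‖ + ‖z - a‖ := by
      calc ‖w - z‖ = ‖(w - a) - (z - a)‖ := by ring_nf
        _ ≤ _ := norm_sub_le _ _
    have := hEa w hw
    linarith
  obtain ⟨β, hβ0, hβ⟩ : ∃ β : ℝ, 0 < β ∧ ∀ y ∈ Y, ‖y‖ ≤ β := by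
    refine ⟨1 + ∑ y ∈ Y, ‖y‖, by positivity, fun y hy => ?_⟩
    have := Finset.single_le_sum (f := fun y : ℂ => ‖y‖) (fun _ _ => norm_nonneg _) hy
    linarith
  obtain ⟨α, hα0, hα, hα'⟩ : ∃ α : ℝ, 0 < α ∧ (∀ y ∈ Y, α ≤ ‖y‖) ∧
      ∀ y ∈ Y, ∀ y' ∈ Y, y ≠ y' → α ≤ ‖y - y'‖ := by
    obtain ⟨α1, a1, a2⟩ := exists_pos_lb Y (fun y => ‖y‖) (fun y hy =>
      norm_pos_iff.mpr (by rintro rfl; exact hY0 hy))
    obtain ⟨α2, b1, b2⟩ := exists_pos_lb Y.offDiag (fun y => ‖y.1 - y.2‖) (fun y hy =>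
      norm_pos_iff.mpr (sub_ne_zero.mpr (Finset.mem_offDiag.mp hy).2.2))
    exact ⟨min α1 α2, lt_min a1 b1, fun y hy => (min_le_left _ _).trans (a2 y hy),
      fun y hy y' hy' hne => (min_le_right _ _).trans
        (b2 (y, y') (Finset.mem_offDiag.mpr ⟨hy, hy', hne⟩))⟩
  have hη : (0 : ℝ) < 1 - 1 / (4 * M) := by
    rw [sub_pos, div_lt_one (by positivity)]
    linarith
  have hη1 : 1 - 1 / (4 * (M : ℝ)) < 1 := by
    have : (0 : ℝ) < 1 / (4 * M) := by positivity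
    linarith
  obtain ⟨p0, d0, hd01, hp0d, hp0E, hp0z⟩ := hgb (g * (1 - 1 / (4 * M))) (by positivity)
    (mul_lt_of_lt_one_right hg0 hη1)
  set G : ℝ := Real.exp (d0 * (g * (1 - 1 / (4 * M)))) with hG
  obtain ⟨r0, hr0, hr0'⟩ : ∃ r0 : ℝ, 0 < r0 ∧ ∀ w, ‖w - z‖ ≤ r0 → G ≤ ‖p0.eval w‖ := by
    have ho : IsOpen {w : ℂ | G < ‖p0.eval w‖} :=
      isOpen_lt continuous_const p0.continuous.norm
    obtain ⟨ε, hε, hεs⟩ := Metric.isOpen_iff.mp ho z hp0z
    refine ⟨ε / 2, by positivity, fun w hw => le_of_lt (hεs ?_)⟩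
    rw [mem_ball, dist_eq_norm]
    linarith
  obtain ⟨r, hr, hr1, m0, t', hm01, e1, e2, e3, e4⟩ := params M (q' * k) d0 J hM1 hd01 g gq
    (d / (2 * β)) (d / (2 * β)) ((2 * B) ^ M) (J * 2 ^ k) (D / (2 * β)) α B
    (min (min (δ / β) (d / 2 / β)) (min (min (B / β) (1 / α)) (min (r0 / β) B))) hg0 hgq0 hMk
    (by positivity) (by positivity) (by positivity) (by positivity) (by positivity) hα0 hB0
    (by positivity)
  simp only [le_min_iff] at hr1
  obtain ⟨⟨f1, f2⟩, ⟨f3, f4⟩, f5, f6⟩ := hr1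
  rw [le_div_iff₀ hβ0] at f1 f2 f3 f5
  rw [le_div_iff₀ hα0] at f4
  have hrc : (r : ℂ) ≠ 0 := by exact_mod_cast hr.ne'
  have hnr : ‖(r : ℂ)‖ = r := by rw [Complex.norm_real, Real.norm_eq_abs, abs_of_pos hr]
  have hry : ∀ y ∈ Y, ‖(r : ℂ) * y‖ ≤ r * β := by
    intro y hy
    rw [norm_mul, hnr]
    gcongr
    exact hβ y hy
  set A : ℝ := Real.exp (t' * gq) with hA
  have hA0 : 0 < A := Real.exp_pos _
  have hAe : A = (D / R0) ^ t' := by
    rw [hA, Real.exp_nat_mul, hgq, Real.exp_log (by positivity)]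
  let p : ℂ[X] := C ((J / A : ℝ) : ℂ) * (q ^ t' * Q.comp (C (1 / (r : ℂ)) * (X - C z)))
  have hpe : ∀ w, ‖p.eval w‖ = J / A * ((‖w - a‖ / R0) ^ t' * ‖Q.eval ((w - z) / r)‖) := by
    intro w
    simp only [p, eval_mul, eval_C, eval_pow, eval_comp, eval_sub, eval_X, norm_mul, norm_pow, hqe]
    rw [Complex.norm_real, Real.norm_eq_abs, abs_of_pos (by positivity)]
    congr 4
    ring
  refine ⟨insert z ((fun y => z + r * y) '' (Y : Set ℂ)),
    (Y.finite_toSet.image _).insert z, Set.mem_insert _ _, ?_, m0, p, ?_, ?_, ?_⟩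
  · rintro w (rfl | ⟨y, hy, rfl⟩)
    · exact mem_closedBall_self hδ.le
    · rw [mem_closedBall, dist_eq_norm, add_sub_cancel_left]
      exact (hry y hy).trans f1
  · refine le_trans (Nat.mul_le_mul_left J ?_) e1
    refine (natDegree_C_mul_le _ _).trans (natDegree_mul_le.trans (Nat.add_le_add ?_ ?_))
    · exact natDegree_pow_le.trans (by simpa using Nat.mul_le_mul_left t' hqd)
    · refine natDegree_comp_le.trans ?_
      have : (C (1 / (r : ℂ)) * (X - C z)).natDegree ≤ 1 :=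
        (natDegree_C_mul_le _ _).trans (natDegree_X_sub_C z).le
      simpa using Nat.mul_le_mul hQd this
  · rw [hpe, sub_self, zero_div, hQ0, mul_one, ← hD, ← hAe, div_mul_cancel₀ _ hA0.ne']
  · intro m hm1 hm2 x hx hEx i
    obtain ⟨c1, c2, t, c3, c4⟩ := e4 m hm1 hm2
    have hne := avoid E (infinite_of_ball hE) z Y r d β α B g G M m t d0 hYc (by omega)
      (Fintype.card_fin _) hr hd0 hβ0 hα0 (Real.exp_pos _).le hdE hBE hβ hα hα' f2 f3
      (by linarith) f4 hga c1 c2 p0 hp0d hp0E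
      (fun y hy => hr0' _ (by rw [add_sub_cancel_left]; exact (hry y hy).trans f5)) c3 c4 hY x hx
      hEx i
    rw [hpe]
    rcases hx i with h | h | ⟨y, hy, h⟩
    · have a1 : (‖x i - a‖ / R0) ^ t' ≤ 1 :=
        pow_le_one₀ (by positivity) (by rw [div_le_one hR0]; exact hEa _ h)
      have a2 := hQb ((x i - z) / r) (B / r) (by rw [le_div_iff₀ hr]; linarith) (by
        rw [norm_div, hnr]
        gcongr
        exact hBE _ h)
      calc _ ≤ J / A * (1 * (2 ^ k * (B / r) ^ (q' * k))) := by gcongr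
        _ = (J * 2 ^ k * (B / r) ^ (q' * k)) / A := by ring
        _ < 1 := by rw [div_lt_one hA0]; exact e2
    · exact absurd h hne
    · have a0 : (x i - z) / r = y := by rw [← h]; field_simp; ring
      rw [a0]
      have a1 := hQY y hy
      have a2 : ‖x i - a‖ / R0 ≤ D / R0 * Real.exp (r * β / D) := by
        have b1 : ‖x i - a‖ ≤ D + r * β := by
          calc ‖x i - a‖ = ‖(z - a) + r * y‖ := by rw [← h]; ring_nf
            _ ≤ _ := (norm_add_le _ _).trans (by have := hry y hy; linarith)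
        have b2 := Real.add_one_le_exp (r * β / D)
        calc ‖x i - a‖ / R0 ≤ (D + r * β) / R0 := by gcongr
          _ = D / R0 * (r * β / D + 1) := by field_simp; ring
          _ ≤ _ := by gcongr
      have a3 : (‖x i - a‖ / R0) ^ t' ≤ A * 3 := by
        calc _ ≤ (D / R0 * Real.exp (r * β / D)) ^ t' := by gcongr
          _ = A * Real.exp (t' * (r * β / D)) := by rw [mul_pow, ← hAe, Real.exp_nat_mul]
          _ ≤ A * Real.exp 1 := by
            gcongr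
            rw [le_div_iff₀ (by positivity)] at e3
            rw [← mul_div_assoc, div_le_one hD0]
            nlinarith
          _ ≤ A * 3 := by
            gcongr
            exact Real.exp_one_lt_three.le
      have a4 : (J : ℝ) < 2 ^ J := by exact_mod_cast Nat.lt_two_pow_self
      calc _ ≤ J / A * (A * 3 * (1 / 2) ^ k) := by gcongr
        _ = 3 / 4 * (J / 2 ^ J) := by
          rw [hk, pow_add, one_div, inv_pow]
          field_simp
          norm_num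
        _ < 1 := by
          have : (J : ℝ) / 2 ^ J < 1 := by rw [div_lt_one (by positivity)]; exact a4
          linarith

end Pool.Agent.H467Z.Fek
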